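import Mathlib
import Pool.Agent.Helper62.VT.RF
import Pool.Agent.Helper62.VT.Final

/-!
# Closure properties of read-once formulas
-/

namespace Pool.Agent.Helper62.VT

open MvPolynomial

variable {n : ℕ}

/-- A variable splits off a read-once formula. -/
theorem RF.split (f : RF n) (hf : f.RO) (l : Fin n) :
    ∃ (U V : RF n) (T : Polynomial ℂ), U.RO ∧ V.RO ∧ U.vars ⊆ f.vars.erase l ∧
      V.vars ⊆ f.vars.erase l ∧ f.poly = U.poly + V.poly * Polynomial.aeval (X l) T := by
  induction f with
  | const c =>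
    refine ⟨RF.const c, RF.const 0, 0, trivial, trivial, Finset.empty_subset _,
      Finset.empty_subset _, ?_⟩
    simp [RF.poly]
  | leaf l' T' =>
    by_cases h : l' = l
    · subst h
      refine ⟨RF.const 0, RF.const 1, T', trivial, trivial, Finset.empty_subset _,
        Finset.empty_subset _, ?_⟩
      simp [RF.poly]
    · refine ⟨RF.leaf l' T', RF.const 0, 0, trivial, trivial, ?_, Finset.empty_subset _, ?_⟩
      · intro a ha
        have ha' : a = l' := by simpa [RF.vars] using ha
        subst ha'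
        exact Finset.mem_erase.2 ⟨h, ha⟩
      · simp [RF.poly]
  | add f g ihf ihg =>
    obtain ⟨hf1, hg1, hd⟩ := hf
    by_cases h : l ∈ g.vars
    · have h' : l ∉ f.vars := fun h1 => (Finset.disjoint_left.1 hd h1) h
      obtain ⟨U, V, T, hU, hV, hUv, hVv, he⟩ := ihg hg1
      refine ⟨RF.add f U, V, T, ⟨hf1, hU, ?_⟩, hV, ?_, ?_, ?_⟩
      · exact hd.mono_right (hUv.trans (Finset.erase_subset _ _))
      · intro a ha
        rcases Finset.mem_union.1 ha with ha | ha
        · exact Finset.mem_erase.2 ⟨fun h1 => h' (h1 ▸ ha), Finset.mem_union_left _ ha⟩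
        · have := Finset.mem_erase.1 (hUv ha)
          exact Finset.mem_erase.2 ⟨this.1, Finset.mem_union_right _ this.2⟩
      · intro a ha
        have := Finset.mem_erase.1 (hVv ha)
        exact Finset.mem_erase.2 ⟨this.1, Finset.mem_union_right _ this.2⟩
      · simp only [RF.poly]
        rw [he]
        ring
    · obtain ⟨U, V, T, hU, hV, hUv, hVv, he⟩ := ihf hf1
      refine ⟨RF.add U g, V, T, ⟨hU, hg1, ?_⟩, hV, ?_, ?_, ?_⟩
      · exact hd.mono_left (hUv.trans (Finset.erase_subset _ _))
      · intro a ha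
        rcases Finset.mem_union.1 ha with ha | ha
        · have := Finset.mem_erase.1 (hUv ha)
          exact Finset.mem_erase.2 ⟨this.1, Finset.mem_union_left _ this.2⟩
        · exact Finset.mem_erase.2 ⟨fun h1 => h (h1 ▸ ha), Finset.mem_union_right _ ha⟩
      · intro a ha
        have := Finset.mem_erase.1 (hVv ha)
        exact Finset.mem_erase.2 ⟨this.1, Finset.mem_union_left _ this.2⟩
      · simp only [RF.poly]
        rw [he]
        ring
  | mul f g ihf ihg =>
    obtain ⟨hf1, hg1, hd⟩ := hf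
    by_cases h : l ∈ g.vars
    · have h' : l ∉ f.vars := fun h1 => (Finset.disjoint_left.1 hd h1) h
      obtain ⟨U, V, T, hU, hV, hUv, hVv, he⟩ := ihg hg1
      have key : ∀ W : RF n, W.vars ⊆ g.vars.erase l →
          (RF.mul f W).vars ⊆ (RF.mul f g).vars.erase l := by
        intro W hW a ha
        rcases Finset.mem_union.1 ha with ha | ha
        · exact Finset.mem_erase.2 ⟨fun h1 => h' (h1 ▸ ha), Finset.mem_union_left _ ha⟩
        · have := Finset.mem_erase.1 (hW ha)
          exact Finset.mem_erase.2 ⟨this.1, Finset.mem_union_right _ this.2⟩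
      refine ⟨RF.mul f U, RF.mul f V, T,
        ⟨hf1, hU, hd.mono_right (hUv.trans (Finset.erase_subset _ _))⟩,
        ⟨hf1, hV, hd.mono_right (hVv.trans (Finset.erase_subset _ _))⟩, key U hUv, key V hVv, ?_⟩
      simp only [RF.poly]
      rw [he]
      ring
    · obtain ⟨U, V, T, hU, hV, hUv, hVv, he⟩ := ihf hf1
      have key : ∀ W : RF n, W.vars ⊆ f.vars.erase l →
          (RF.mul W g).vars ⊆ (RF.mul f g).vars.erase l := by
        intro W hW a ha
        rcases Finset.mem_union.1 ha with ha | ha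
        · have := Finset.mem_erase.1 (hW ha)
          exact Finset.mem_erase.2 ⟨this.1, Finset.mem_union_left _ this.2⟩
        · exact Finset.mem_erase.2 ⟨fun h1 => h (h1 ▸ ha), Finset.mem_union_right _ ha⟩
      refine ⟨RF.mul U g, RF.mul V g, T,
        ⟨hU, hg1, hd.mono_left (hUv.trans (Finset.erase_subset _ _))⟩,
        ⟨hV, hg1, hd.mono_left (hVv.trans (Finset.erase_subset _ _))⟩, key U hUv, key V hVv, ?_⟩
      simp only [RF.poly]
      rw [he]
      ring

/-- Derivatives of univariate polynomials in one variable. -/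
theorem pderiv_aeval_X (l l' : Fin n) (T : Polynomial ℂ) :
    pderiv l (Polynomial.aeval (X l') T : MvPolynomial (Fin n) ℂ) =
      if l' = l then Polynomial.aeval (X l') (Polynomial.derivative T) else 0 := by
  have h1 := (pderiv l : Derivation ℂ (MvPolynomial (Fin n) ℂ) (MvPolynomial (Fin n) ℂ)).map_aeval
    T (X l' : MvPolynomial (Fin n) ℂ)
  rw [h1]
  by_cases hl : l' = l
  · subst hl
    rw [if_pos rfl, pderiv_X_self, smul_eq_mul, mul_one]
  · rw [if_neg hl, pderiv_X_of_ne hl, smul_zero]

/-- Variables outside `vars` do not occur. -/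
theorem RF.pderiv_eq_zero (f : RF n) {l : Fin n} (hl : l ∉ f.vars) :
    MvPolynomial.pderiv l f.poly = 0 := by
  induction f with
  | const c => simp [RF.poly]
  | leaf l' T =>
    simp only [RF.vars, Finset.mem_singleton] at hl
    rw [RF.poly, pderiv_aeval_X, if_neg (fun h => hl h.symm)]
  | add f g ihf ihg =>
    simp only [RF.vars, Finset.mem_union, not_or] at hl
    rw [RF.poly, map_add, ihf hl.1, ihg hl.2, add_zero]
  | mul f g ihf ihg =>
    simp only [RF.vars, Finset.mem_union, not_or] at hl
    rw [RF.poly, Derivation.leibniz, ihf hl.1, ihg hl.2, smul_zero, smul_zero, add_zero]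

/-- Only the values of the variables in `vars` matter. -/
theorem RF.eval_congr (f : RF n) {x y : Fin n → ℂ} (h : ∀ l ∈ f.vars, x l = y l) :
    eval x f.poly = eval y f.poly := by
  have key : ∀ (z : Fin n → ℂ) (l : Fin n) (T : Polynomial ℂ),
      eval z (Polynomial.aeval (X l) T) = T.eval (z l) := by
    intro z l T
    have h1 := Polynomial.aeval_algHom_apply (MvPolynomial.aeval z (R := ℂ)) (X l) T
    rw [aeval_X] at h1
    rw [← Polynomial.coe_aeval_eq_eval, h1, ← MvPolynomial.coe_aeval_eq_eval]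
    rfl
  induction f with
  | const c => simp [RF.poly]
  | leaf l' T =>
    rw [RF.poly, key, key, h l' (by simp [RF.vars])]
  | add f g ihf ihg =>
    rw [RF.poly, map_add, map_add, ihf fun l hl => h l (Finset.mem_union_left _ hl),
      ihg fun l hl => h l (Finset.mem_union_right _ hl)]
  | mul f g ihf ihg =>
    rw [RF.poly, map_mul, map_mul, ihf fun l hl => h l (Finset.mem_union_left _ hl),
      ihg fun l hl => h l (Finset.mem_union_right _ hl)]

/-- `vars` contains the variables of the polynomial. -/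
theorem RF.vars_poly (f : RF n) : (∀ l ∉ f.vars, MvPolynomial.pderiv l f.poly = 0) ∧
    ∀ x y : Fin n → ℂ, (∀ l ∈ f.vars, x l = y l) → eval x f.poly = eval y f.poly :=
  ⟨fun _ hl => f.pderiv_eq_zero hl, fun _ _ h => f.eval_congr h⟩

/-- Partial derivatives of read-once formulas are read-once formulas. -/
theorem RF.pderiv (f : RF n) (hf : f.RO) (l : Fin n) :
    ∃ E : RF n, E.RO ∧ E.vars ⊆ f.vars ∧ E.poly = MvPolynomial.pderiv l f.poly := by
  by_cases hl : l ∈ f.vars
  · obtain ⟨U, V, T, hU, hV, hUv, hVv, he⟩ := f.split hf l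
    have hlU : l ∉ U.vars := fun h => (Finset.mem_erase.1 (hUv h)).1 rfl
    have hlV : l ∉ V.vars := fun h => (Finset.mem_erase.1 (hVv h)).1 rfl
    refine ⟨RF.mul V (RF.leaf l (Polynomial.derivative T)), ⟨hV, trivial, ?_⟩, ?_, ?_⟩
    · exact Finset.disjoint_singleton_right.2 hlV
    · intro a ha
      rcases Finset.mem_union.1 ha with ha | ha
      · exact (Finset.mem_erase.1 (hVv ha)).2
      · rw [Finset.mem_singleton.1 ha]
        exact hl
    · rw [he, map_add, Derivation.leibniz, U.pderiv_eq_zero hlU, V.pderiv_eq_zero hlV,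
        pderiv_aeval_X, if_pos rfl, smul_zero, zero_add, add_zero, smul_eq_mul]
      rfl
  · refine ⟨RF.const 0, trivial, Finset.empty_subset _, ?_⟩
    rw [f.pderiv_eq_zero hl]
    simp [RF.poly]

/-- Normal form: the children of the multiplication gates are not zero. -/
theorem RF.normal (f : RF n) (hf : f.RO) :
    ∃ f' : RF n, f'.RO ∧ f'.vars ⊆ f.vars ∧ f'.poly = f.poly ∧
      ∀ h ∈ f'.mc, h.RO ∧ h.poly ≠ 0 := by
  induction f with
  | const c => exact ⟨RF.const c, trivial, le_rfl, rfl, by simp [RF.mc]⟩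
  | leaf l T => exact ⟨RF.leaf l T, trivial, le_rfl, rfl, by simp [RF.mc]⟩
  | add f g ihf ihg =>
    obtain ⟨hf1, hg1, hd⟩ := hf
    obtain ⟨f', hf', hfv, hfp, hfm⟩ := ihf hf1
    obtain ⟨g', hg', hgv, hgp, hgm⟩ := ihg hg1
    refine ⟨RF.add f' g', ⟨hf', hg', hd.mono hfv hgv⟩, Finset.union_subset_union hfv hgv, ?_, ?_⟩
    · rw [RF.poly, RF.poly, hfp, hgp]
    · intro h hh
      rcases List.mem_append.1 hh with hh | hh
      · exact hfm h hh
      · exact hgm h hh
  | mul f g ihf ihg =>
    obtain ⟨hf1, hg1, hd⟩ := hf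
    obtain ⟨f', hf', hfv, hfp, hfm⟩ := ihf hf1
    obtain ⟨g', hg', hgv, hgp, hgm⟩ := ihg hg1
    by_cases h0 : f'.poly = 0 ∨ g'.poly = 0
    · refine ⟨RF.const 0, trivial, Finset.empty_subset _, ?_, by simp [RF.mc]⟩
      rw [RF.poly, RF.poly, ← hfp, ← hgp, map_zero]
      rcases h0 with h0 | h0 <;> rw [h0] <;> simp
    · rw [not_or] at h0
      refine ⟨RF.mul f' g', ⟨hf', hg', hd.mono hfv hgv⟩, Finset.union_subset_union hfv hgv, ?_, ?_⟩
      · rw [RF.poly, RF.poly, hfp, hgp]
      · intro h hh
        rcases List.mem_cons.1 hh with rfl | hh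
        · exact ⟨hf', h0.1⟩
        rcases List.mem_cons.1 hh with rfl | hh
        · exact ⟨hg', h0.2⟩
        rcases List.mem_append.1 hh with hh | hh
        · exact hfm h hh
        · exact hgm h hh

/-- A formula without the variables in the range of `e` becomes a constant. -/
theorem RF.split_poly {r : ℕ} {e : Fin r → Fin n} (f : RF n) (hf : ∀ j, e j ∉ f.vars) :
    Pool.Agent.Helper62.VT.split e (X : Fin n → MvPolynomial (Fin n) ℂ) f.poly = C f.poly := by
  have hC : ∀ c : ℂ, Pool.Agent.Helper62.VT.split e (X : Fin n → MvPolynomial (Fin n) ℂ) (C c) =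
      C (C c) := by
    intro c
    rw [← MvPolynomial.algebraMap_eq, AlgHom.commutes]
    rfl
  induction f with
  | const c => exact hC c
  | leaf l T =>
    have hl : ∀ j, e j ≠ l := by
      intro j h
      exact hf j (by simp [RF.vars, h])
    rw [RF.poly, ← Polynomial.aeval_algHom_apply, split_X_not _ hl]
    have h2 := Polynomial.aeval_algHom_apply
      (IsScalarTower.toAlgHom ℂ (MvPolynomial (Fin n) ℂ)
        (MvPolynomial (Fin r) (MvPolynomial (Fin n) ℂ))) (X l) T
    exact h2
  | add f g ihf ihg =>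
    rw [RF.poly, map_add, ihf fun j hj => hf j (Finset.mem_union_left _ hj),
      ihg fun j hj => hf j (Finset.mem_union_right _ hj), map_add]
  | mul f g ihf ihg =>
    rw [RF.poly, map_mul, ihf fun j hj => hf j (Finset.mem_union_left _ hj),
      ihg fun j hj => hf j (Finset.mem_union_right _ hj), map_mul]

/-- Splitting off several variables one after the other. -/
theorem RF.exists_split {k : ℕ} (e : Fin k → Fin n) : ∀ (f : RF n), f.RO →
    ∃ γ : (Fin k → Bool) → RF n, (∀ s, (γ s).RO) ∧ (∀ s j, e j ∉ (γ s).vars) ∧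
      (∀ s, (γ s).vars ⊆ f.vars) ∧
      f.poly ∈ Algebra.adjoin ℂ ((Set.range fun s => (γ s).poly) ∪
        Set.range fun j => (X (e j) : MvPolynomial (Fin n) ℂ)) := by
  induction k with
  | zero =>
    intro f hf
    refine ⟨fun _ => f, fun _ => hf, fun _ j => j.elim0, fun _ => le_rfl, ?_⟩
    exact Algebra.subset_adjoin (Or.inl ⟨fun j => j.elim0, rfl⟩)
  | succ k ih =>
    intro f hf
    obtain ⟨U, V, T, hU, hV, hUv, hVv, he⟩ := f.split hf (e 0)
    obtain ⟨γU, hU1, hU2, hU3, hU4⟩ := ih (fun j => e j.succ) U hU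
    obtain ⟨γV, hV1, hV2, hV3, hV4⟩ := ih (fun j => e j.succ) V hV
    let γ : (Fin (k + 1) → Bool) → RF n := fun s =>
      if s 0 = true then γV (fun j => s j.succ) else γU (fun j => s j.succ)
    have hγU : ∀ s : Fin k → Bool, γ (Fin.cons false s) = γU s := by
      intro s
      simp [γ]
    have hγV : ∀ s : Fin k → Bool, γ (Fin.cons true s) = γV s := by
      intro s
      simp [γ]
    have hγ : ∀ s, γ s = γV (fun j => s j.succ) ∨ γ s = γU (fun j => s j.succ) := by
      intro s
      by_cases h : s 0 = true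
      · exact Or.inl (if_pos h)
      · exact Or.inr (if_neg h)
    have hsub : ∀ s, (γ s).vars ⊆ f.vars.erase (e 0) := by
      intro s
      rcases hγ s with h | h <;> rw [h]
      · exact (hV3 _).trans hVv
      · exact (hU3 _).trans hUv
    refine ⟨γ, ?_, ?_, ?_, ?_⟩
    · intro s
      rcases hγ s with h | h <;> rw [h]
      · exact hV1 _
      · exact hU1 _
    · intro s j
      refine Fin.cases ?_ (fun j => ?_) j
      · intro hj
        exact (Finset.mem_erase.1 (hsub s hj)).1 rfl
      · rcases hγ s with h | h <;> rw [h]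
        · exact hV2 _ j
        · exact hU2 _ j
    · intro s
      exact (hsub s).trans (Finset.erase_subset _ _)
    · rw [he]
      have hUle : Algebra.adjoin ℂ ((Set.range fun s => (γU s).poly) ∪
          Set.range fun j : Fin k => (X (e j.succ) : MvPolynomial (Fin n) ℂ)) ≤
          Algebra.adjoin ℂ ((Set.range fun s => (γ s).poly) ∪
            Set.range fun j => (X (e j) : MvPolynomial (Fin n) ℂ)) := by
        apply Algebra.adjoin_mono
        rintro _ (⟨s, rfl⟩ | ⟨j, rfl⟩)
        · exact Or.inl ⟨Fin.cons false s, by dsimp only; rw [hγU]⟩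
        · exact Or.inr ⟨j.succ, rfl⟩
      have hVle : Algebra.adjoin ℂ ((Set.range fun s => (γV s).poly) ∪
          Set.range fun j : Fin k => (X (e j.succ) : MvPolynomial (Fin n) ℂ)) ≤
          Algebra.adjoin ℂ ((Set.range fun s => (γ s).poly) ∪
            Set.range fun j => (X (e j) : MvPolynomial (Fin n) ℂ)) := by
        apply Algebra.adjoin_mono
        rintro _ (⟨s, rfl⟩ | ⟨j, rfl⟩)
        · exact Or.inl ⟨Fin.cons true s, by dsimp only; rw [hγV]⟩
        · exact Or.inr ⟨j.succ, rfl⟩
      refine Subalgebra.add_mem _ (hUle hU4) (Subalgebra.mul_mem _ (hVle hV4) ?_)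
      refine polynomial_aeval_mem ?_ T
      exact Algebra.subset_adjoin (Or.inr ⟨0, rfl⟩)

/-- **Parameters of a read-once formula.** -/
theorem RF.exists_params {r : ℕ} (e : Fin r → Fin n) (he : Function.Injective e) (f : RF n)
    (hf : f.RO) :
    ∃ γ : (Fin r → Bool) → RF n, (∀ s, (γ s).RO) ∧
      Pool.Agent.Helper62.VT.split e (X : Fin n → MvPolynomial (Fin n) ℂ) f.poly ∈
        W r (Algebra.adjoin ℂ (Set.range fun s => (γ s).poly)) := by
  obtain ⟨γ, h1, h2, -, h4⟩ := RF.exists_split e f hf
  refine ⟨γ, h1, ?_⟩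
  have h5 : (Algebra.adjoin ℂ ((Set.range fun s => (γ s).poly) ∪
        Set.range fun j => (X (e j) : MvPolynomial (Fin n) ℂ))) ≤
      (W r (Algebra.adjoin ℂ (Set.range fun s => (γ s).poly))).comap
        (Pool.Agent.Helper62.VT.split e (X : Fin n → MvPolynomial (Fin n) ℂ)) := by
    rw [Algebra.adjoin_le_iff]
    rintro _ (⟨s, rfl⟩ | ⟨j, rfl⟩)
    · change Pool.Agent.Helper62.VT.split e (X : Fin n → MvPolynomial (Fin n) ℂ) (γ s).poly ∈
        W r (Algebra.adjoin ℂ (Set.range fun s => (γ s).poly))
      rw [RF.split_poly _ (h2 s)]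
      exact C_mem_W (Algebra.subset_adjoin ⟨s, rfl⟩)
    · change Pool.Agent.Helper62.VT.split e (X : Fin n → MvPolynomial (Fin n) ℂ) (X (e j)) ∈
        W r (Algebra.adjoin ℂ (Set.range fun s => (γ s).poly))
      rw [split_X_mem he]
      exact X_mem_W _ _
  exact h5 h4

end Pool.Agent.Helper62.VT
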